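import Pool.Agent.H37.CNS.Stmts

set_option autoImplicit false

namespace Pool.CND

open Finset

namespace LEX18

variable {k L : Type} [Field k] [Field L] [Algebra k L] (P : Place k L)

theorem ge_one : P.Ge 1 0 := Or.inr P.ord_one.ge

/-- the valuation ring -/
def vs : ValuationSubring L where
  carrier := {x | P.Ge x 0}
  mul_mem' := by
    intro x y hx hy
    have h := P.ge_mul hx hy
    rwa [add_zero] at h
  one_mem' := ge_one P
  add_mem' := fun hx hy => P.ge_add hx hy
  zero_mem' := P.ge_zero 0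
  neg_mem' := fun hx => P.ge_neg hx
  mem_or_inv_mem' := by
    intro x
    by_cases hx : x = 0
    · left
      rw [hx]
      exact P.ge_zero 0
    · rcases le_total 0 (P.ord x) with h | h
      · left
        exact Or.inr h
      · right
        refine Or.inr ?_
        rw [P.ord_inv hx]
        omega

theorem mem_vs (x : L) : x ∈ vs P ↔ P.Ge x 0 := Iff.rfl

variable {P} {u : L}

theorem ge_upow (hu : P.ord u = 1) (hu0 : u ≠ 0) (n : ℕ) : P.Ge (u ^ n) n := by
  refine Or.inr ?_
  rw [P.ord_pow hu0, hu, mul_one]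

theorem ge_aeval (hu : P.ord u = 1) (hu0 : u ≠ 0) (q : Polynomial k) :
    P.Ge (Polynomial.aeval u q) 0 := by
  induction q using Polynomial.induction_on' with
  | add p q hp hq =>
    rw [map_add]
    exact P.ge_add hp hq
  | monomial n a =>
    rw [Polynomial.aeval_monomial]
    have h := P.ge_mul (P.ge_const a) (ge_upow hu hu0 n)
    exact P.ge_mono h (by omega)

theorem ge_aeval_dvd (hu : P.ord u = 1) (hu0 : u ≠ 0) (q : Polynomial k) (n : ℕ)
    (h : (Polynomial.X : Polynomial k) ^ n ∣ q) : P.Ge (Polynomial.aeval u q) n := by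
  obtain ⟨r, rfl⟩ := h
  rw [map_mul, map_pow, Polynomial.aeval_X]
  have h := P.ge_mul (ge_upow hu hu0 n) (ge_aeval hu hu0 r)
  rwa [add_zero] at h

/-- `f` is the expansion of `x` -/
def Ex (P : Place k L) (u x : L) (f : PowerSeries k) : Prop :=
  ∀ N : ℕ, P.Ge (x - Polynomial.aeval u (PowerSeries.trunc N f)) N

theorem Ex.add {x y : L} {f g : PowerSeries k} (hx : Ex P u x f) (hy : Ex P u y g) :
    Ex P u (x + y) (f + g) := by
  intro N
  have h : x + y - Polynomial.aeval u (PowerSeries.trunc N (f + g)) =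
      (x - Polynomial.aeval u (PowerSeries.trunc N f)) +
        (y - Polynomial.aeval u (PowerSeries.trunc N g)) := by
    rw [map_add, map_add]
    ring
  rw [h]
  exact P.ge_add (hx N) (hy N)

theorem dvd_sub_trunc (q : Polynomial k) (N : ℕ) :
    (Polynomial.X : Polynomial k) ^ N ∣ q - PowerSeries.trunc N (q : PowerSeries k) := by
  rw [Polynomial.X_pow_dvd_iff]
  intro d hd
  rw [Polynomial.coeff_sub, PowerSeries.coeff_trunc, if_pos hd, Polynomial.coeff_coe, sub_self]

theorem Ex.mul (hu : P.ord u = 1) (hu0 : u ≠ 0) {x y : L} {f g : PowerSeries k}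
    (hx : Ex P u x f) (hy : Ex P u y g) (hx0 : P.Ge x 0) : Ex P u (x * y) (f * g) := by
  intro N
  have h1 : PowerSeries.trunc N (f * g) = PowerSeries.trunc N
      ((PowerSeries.trunc N f * PowerSeries.trunc N g : Polynomial k) : PowerSeries k) := by
    rw [Polynomial.coe_mul, PowerSeries.trunc_trunc_mul_trunc]
  have h2 := ge_aeval_dvd hu hu0 _ N
    (dvd_sub_trunc (PowerSeries.trunc N f * PowerSeries.trunc N g) N)
  rw [← h1, map_sub, map_mul] at h2
  have h3 : x * y - Polynomial.aeval u (PowerSeries.trunc N (f * g)) =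
      x * (y - Polynomial.aeval u (PowerSeries.trunc N g)) +
      ((x - Polynomial.aeval u (PowerSeries.trunc N f)) *
        Polynomial.aeval u (PowerSeries.trunc N g) +
      (Polynomial.aeval u (PowerSeries.trunc N f) * Polynomial.aeval u (PowerSeries.trunc N g) -
        Polynomial.aeval u (PowerSeries.trunc N (f * g)))) := by ring
  rw [h3]
  refine P.ge_add ?_ (P.ge_add ?_ h2)
  · have h := P.ge_mul hx0 (hy N)
    rwa [zero_add] at h
  · have h := P.ge_mul (hx N) (ge_aeval hu hu0 (PowerSeries.trunc N g))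
    rwa [add_zero] at h

theorem Ex.uniq (hu : P.ord u = 1) (hu0 : u ≠ 0) {x : L} {f g : PowerSeries k}
    (hf : Ex P u x f) (hg : Ex P u x g) : f = g := by
  have key : ∀ n : ℕ, PowerSeries.trunc n f = PowerSeries.trunc n g := by
    intro n
    induction n with
    | zero => rw [PowerSeries.trunc_zero', PowerSeries.trunc_zero']
    | succ n ih =>
      rw [PowerSeries.trunc_succ, PowerSeries.trunc_succ, ih]
      have h1 := P.ge_sub (hg (n + 1)) (hf (n + 1))
      rw [PowerSeries.trunc_succ, PowerSeries.trunc_succ, ih, map_add, map_add,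
        Polynomial.aeval_monomial, Polynomial.aeval_monomial] at h1
      have h2 : x - (Polynomial.aeval u (PowerSeries.trunc n g) +
          algebraMap k L (PowerSeries.coeff n g) * u ^ n) -
          (x - (Polynomial.aeval u (PowerSeries.trunc n g) +
          algebraMap k L (PowerSeries.coeff n f) * u ^ n)) =
          algebraMap k L (PowerSeries.coeff n f - PowerSeries.coeff n g) * u ^ n := by
        rw [map_sub]
        ring
      rw [h2] at h1
      have h3 : PowerSeries.coeff n f = PowerSeries.coeff n g := by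
        by_contra hne
        have h4 : PowerSeries.coeff n f - PowerSeries.coeff n g ≠ 0 := sub_ne_zero.2 hne
        have h5 : algebraMap k L (PowerSeries.coeff n f - PowerSeries.coeff n g) ≠ 0 :=
          fun h => h4 ((map_eq_zero_iff _ (algebraMap k L).injective).1 h)
        have h6 := (P.ge_iff (mul_ne_zero h5 (pow_ne_zero n hu0)) _).1 h1
        rw [P.ord_mul _ _ h5 (pow_ne_zero n hu0), P.ord_const _ h4, P.ord_pow hu0, hu] at h6
        push_cast at h6
        omega
      rw [h3]
  ext n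
  have h := congrArg (fun q : Polynomial k => q.coeff n) (key (n + 1))
  simp only [PowerSeries.coeff_trunc] at h
  rwa [if_pos (Nat.lt_succ_self n), if_pos (Nat.lt_succ_self n)] at h

theorem step (hu : P.ord u = 1) (hu0 : u ≠ 0) (x : {x : L // P.Ge x 0}) :
    ∃ (c : k) (y : {x : L // P.Ge x 0}), x.1 = algebraMap k L c + u * y.1 := by
  have h1 : ∃ c : k, P.Ge (x.1 - algebraMap k L c) 1 := by
    by_cases hx : x.1 = 0
    · exact ⟨0, Or.inl (by rw [hx, map_zero, sub_zero])⟩
    · obtain ⟨c, hc⟩ := P.residue x.1 hx (x.2.resolve_left hx)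
      rcases hc with hc | hc
      · exact ⟨c, Or.inl (by rw [hc, sub_self])⟩
      · exact ⟨c, Or.inr (by omega)⟩
  obtain ⟨c, hc⟩ := h1
  have h2 : P.Ge (u⁻¹ * (x.1 - algebraMap k L c)) 0 := by
    have h3 : P.Ge u⁻¹ (-1) := Or.inr (by rw [P.ord_inv hu0, hu])
    have h := P.ge_mul h3 hc
    exact P.ge_mono h (by omega)
  refine ⟨c, ⟨u⁻¹ * (x.1 - algebraMap k L c), h2⟩, ?_⟩
  change x.1 = algebraMap k L c + u * (u⁻¹ * (x.1 - algebraMap k L c))
  rw [mul_inv_cancel_left₀ hu0]
  ring

theorem exists_ex (hu : P.ord u = 1) (hu0 : u ≠ 0) (x : L) (hx : P.Ge x 0) :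
    ∃ f, Ex P u x f := by
  choose c nx hnx using (step (P := P) hu hu0)
  have hs : ∃ s : ℕ → {x : L // P.Ge x 0}, s 0 = ⟨x, hx⟩ ∧ ∀ n, s (n + 1) = nx (s n) :=
    ⟨fun n => Nat.rec ⟨x, hx⟩ (fun _ y => nx y) n, rfl, fun _ => rfl⟩
  obtain ⟨s, hs0, hs1⟩ := hs
  refine ⟨PowerSeries.mk fun n => c (s n), ?_⟩
  have key : ∀ N : ℕ, x = Polynomial.aeval u
      (PowerSeries.trunc N (PowerSeries.mk fun n => c (s n))) + u ^ N * (s N).1 := by
    intro N
    induction N with
    | zero =>
      rw [PowerSeries.trunc_zero', map_zero, pow_zero, hs0]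
      ring
    | succ N ih =>
      rw [PowerSeries.trunc_succ, map_add, Polynomial.aeval_monomial, PowerSeries.coeff_mk,
        hs1 N]
      have h := hnx (s N)
      calc x = Polynomial.aeval u
            (PowerSeries.trunc N (PowerSeries.mk fun n => c (s n))) + u ^ N * (s N).1 := ih
        _ = _ := by
          rw [h]
          ring
  intro N
  have h1 : x - Polynomial.aeval u (PowerSeries.trunc N (PowerSeries.mk fun n => c (s n))) =
      u ^ N * (s N).1 := by
    have h2 := key N
    linear_combination h2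
  rw [h1]
  have h := P.ge_mul (ge_upow hu hu0 N) (s N).2
  rwa [add_zero] at h

/-- the expansion -/
noncomputable def ex (hu : P.ord u = 1) (hu0 : u ≠ 0) (x : vs P) : PowerSeries k :=
  Classical.choose (exists_ex hu hu0 x.1 x.2)

theorem ex_spec (hu : P.ord u = 1) (hu0 : u ≠ 0) (x : vs P) : Ex P u x.1 (ex hu hu0 x) :=
  Classical.choose_spec (exists_ex hu hu0 x.1 x.2)

theorem Ex.const (_hu : P.ord u = 1) (_hu0 : u ≠ 0) (c : k) :
    Ex P u (algebraMap k L c) (PowerSeries.C c) := by
  intro N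
  cases N with
  | zero =>
    rw [PowerSeries.trunc_zero', map_zero, sub_zero]
    exact P.ge_const c
  | succ N =>
    rw [PowerSeries.trunc_C, Polynomial.aeval_C, sub_self]
    exact P.ge_zero _

theorem Ex.self (hu : P.ord u = 1) (_hu0 : u ≠ 0) : Ex P u u PowerSeries.X := by
  intro N
  rcases Nat.lt_or_ge N 2 with h | h
  · have h1 : PowerSeries.trunc N (PowerSeries.X : PowerSeries k) = 0 := by
      ext d
      rw [PowerSeries.coeff_trunc, PowerSeries.coeff_X, Polynomial.coeff_zero]
      split_ifs with h1 h2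
      · omega
      · rfl
      · rfl
    rw [h1, map_zero, sub_zero]
    exact Or.inr (by rw [hu]; omega)
  · obtain ⟨M, rfl⟩ := Nat.exists_eq_add_of_le' h
    rw [PowerSeries.trunc_X, Polynomial.aeval_X, sub_self]
    exact P.ge_zero _

/-- the expansion as a ring homomorphism -/
noncomputable def exHom (hu : P.ord u = 1) (hu0 : u ≠ 0) : vs P →+* PowerSeries k where
  toFun := ex hu hu0
  map_one' := by
    refine (ex_spec hu hu0 1).uniq hu hu0 ?_
    have h := Ex.const (P := P) hu hu0 1
    rw [map_one, map_one] at h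
    exact h
  map_zero' := by
    refine (ex_spec hu hu0 0).uniq hu hu0 ?_
    have h := Ex.const (P := P) hu hu0 0
    rw [map_zero, map_zero] at h
    exact h
  map_mul' := fun x y => (ex_spec hu hu0 (x * y)).uniq hu hu0
    ((ex_spec hu hu0 x).mul hu hu0 (ex_spec hu hu0 y) x.2)
  map_add' := fun x y => (ex_spec hu hu0 (x + y)).uniq hu hu0
    ((ex_spec hu hu0 x).add (ex_spec hu hu0 y))

theorem exHom_eq (hu : P.ord u = 1) (hu0 : u ≠ 0) (x : vs P) (f : PowerSeries k)
    (h : Ex P u x.1 f) : exHom hu hu0 x = f := (ex_spec hu hu0 x).uniq hu hu0 h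

theorem exHom_inj (hu : P.ord u = 1) (hu0 : u ≠ 0) : Function.Injective (exHom hu hu0) := by
  rw [injective_iff_map_eq_zero]
  intro x hx
  have h1 : Ex P u x.1 (0 : PowerSeries k) := by
    have h := ex_spec hu hu0 x
    change Ex P u x.1 (exHom hu hu0 x) at h
    rwa [hx] at h
  by_contra hne
  have h2 : x.1 ≠ 0 := fun h => hne (Subtype.ext h)
  have h3 := h1 ((P.ord x.1).toNat + 1)
  rw [map_zero, map_zero, sub_zero] at h3
  have h4 := (P.ge_iff h2 _).1 h3
  push_cast at h4
  have h5 := Int.self_le_toNat (P.ord x.1)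
  omega

end LEX18

open LEX18 in
theorem lex_thm : S_LEX := by
  intro k L _ _ _ P u hu0 hu
  have hinj : Function.Injective ((HahnSeries.ofPowerSeries ℤ k).comp (exHom (P := P) hu hu0)) :=
    HahnSeries.ofPowerSeries_injective.comp (exHom_inj hu hu0)
  obtain ⟨φ, hφ⟩ : ∃ φ : L →+* LaurentSeries k, ∀ x : vs P, φ (x : L) =
      HahnSeries.ofPowerSeries ℤ k (exHom hu hu0 x) :=
    ⟨IsFractionRing.lift (A := vs P) (K := L) hinj, fun x =>
      IsFractionRing.lift_algebraMap hinj x⟩
  have hc : ∀ c : k, φ (algebraMap k L c) = algebraMap k (LaurentSeries k) c := by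
    intro c
    have h := hφ ⟨algebraMap k L c, P.ge_const c⟩
    rw [exHom_eq hu hu0 _ (PowerSeries.C c) (Ex.const hu hu0 c)] at h
    exact h
  have hφu : φ u = HahnSeries.single 1 1 := by
    have h := hφ ⟨u, Or.inr (by rw [hu]; omega)⟩
    rw [exHom_eq hu hu0 _ PowerSeries.X (Ex.self hu hu0), HahnSeries.ofPowerSeries_X] at h
    exact h
  have hne : ∀ x : L, x ≠ 0 → φ x ≠ 0 := fun x hx h =>
    hx ((map_eq_zero_iff φ φ.injective).1 h)
  have hnn : ∀ x : L, x ≠ 0 → 0 ≤ P.ord x → 0 ≤ (φ x).order := by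
    intro x hx h0
    by_contra hlt
    rw [not_le] at hlt
    apply hne x hx
    rw [← HahnSeries.coeff_order_eq_zero]
    have h2 := hφ ⟨x, Or.inr h0⟩
    change φ x = _ at h2
    rw [h2, PowerSeries.coeff_coe, ← h2, if_pos hlt]
  have h0 : ∀ x : L, x ≠ 0 → P.ord x = 0 → (φ x).order = 0 := by
    intro x hx h
    have h1 := hnn x hx h.ge
    have h2 := hnn x⁻¹ (inv_ne_zero hx) (by rw [P.ord_inv hx, h, neg_zero])
    have h3 : (φ x * φ x⁻¹).order = (φ x).order + (φ x⁻¹).order :=
      HahnSeries.order_mul (hne x hx) (hne _ (inv_ne_zero hx))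
    rw [← map_mul, mul_inv_cancel₀ hx, map_one, HahnSeries.order_one] at h3
    omega
  have hun : ∀ n : ℕ, (φ (u ^ n)).order = n := by
    intro n
    rw [map_pow, HahnSeries.order_pow, hφu, HahnSeries.order_single one_ne_zero, nsmul_eq_mul,
      mul_one]
  refine ⟨{ toRingHom := φ, commutes' := hc }, hφu, ?_⟩
  intro x hx
  change (φ x).order = P.ord x
  rcases le_total 0 (P.ord x) with h | h
  · obtain ⟨n, hn⟩ := Int.eq_ofNat_of_zero_le h
    have h1 : x = u ^ n * (x / u ^ n) := by
      rw [mul_div_cancel₀ _ (pow_ne_zero n hu0)]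
    have h2 : x / u ^ n ≠ 0 := div_ne_zero hx (pow_ne_zero n hu0)
    have h3 : P.ord (x / u ^ n) = 0 := by
      rw [P.ord_div hx (pow_ne_zero n hu0), P.ord_pow hu0, hu, hn]
      ring
    have h4 : (φ (u ^ n) * φ (x / u ^ n)).order = (φ (u ^ n)).order + (φ (x / u ^ n)).order :=
      HahnSeries.order_mul (hne _ (pow_ne_zero n hu0)) (hne _ h2)
    rw [← map_mul, ← h1, hun, h0 _ h2 h3, add_zero] at h4
    rw [h4, hn]
  · obtain ⟨n, hn⟩ := Int.eq_ofNat_of_zero_le (neg_nonneg.2 h)
    have h1 : x * u ^ n ≠ 0 := mul_ne_zero hx (pow_ne_zero n hu0)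
    have h3 : P.ord (x * u ^ n) = 0 := by
      rw [P.ord_mul _ _ hx (pow_ne_zero n hu0), P.ord_pow hu0, hu]
      omega
    have h4 : (φ x * φ (u ^ n)).order = (φ x).order + (φ (u ^ n)).order :=
      HahnSeries.order_mul (hne _ hx) (hne _ (pow_ne_zero n hu0))
    rw [← map_mul, h0 _ h1 h3, hun] at h4
    omega

end Pool.CND
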